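import Pool.Agent.Lib.H25K.Kad

set_option autoImplicit false

universe u

namespace Pool.Agent.Results.MP_583d70_an.TwoBodies

open scoped ENNReal NNReal

/-- A convex body: a closed convex set with non-empty interior. -/
def IsConvexBody {E : Type*} [NormedAddCommGroup E] [NormedSpace ℝ E] (C : Set E) : Prop :=
  Convex ℝ C ∧ IsClosed C ∧ (interior C).Nonempty

/-- The inradius of `C`: the supremum (in `[0, ∞]`) of the numbers `ρ ≥ 0` such that some open ball of radius
`ρ` lies in `C`. -/
noncomputable def inradius {E : Type*} [NormedAddCommGroup E] (C : Set E) : ℝ≥0∞ :=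
  ⨆ (ρ : ℝ≥0) (_ : ∃ x : E, Metric.ball x (ρ : ℝ) ⊆ C), (ρ : ℝ≥0∞)

theorem inradius_mono {E : Type*} [NormedAddCommGroup E] {C D : Set E} (h : C ⊆ D) :
    inradius C ≤ inradius D :=
  iSup_le fun ρ => iSup_le fun hρ => le_iSup_of_le ρ (le_iSup_of_le (hρ.imp fun _ hx => hx.trans h) le_rfl)

/-- In every universe there is a non-zero real Banach space in which every closed ball `B` of radius `R > 0` is
covered by two convex bodies whose inradii add up to at most `(3 - √5) R`, that is `0.7639... R`, while the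
inradius of `B` is `R`. So the inradius covering inequality fails in this space for every ball. -/
theorem result : ∃ (E : Type u) (_ : NormedAddCommGroup E) (_ : NormedSpace ℝ E),
    CompleteSpace E ∧ Nontrivial E ∧
    ∀ (c : E) (R : ℝ), 0 < R → ∃ C₁ C₂ : Set E, IsConvexBody C₁ ∧ IsConvexBody C₂ ∧
      Metric.closedBall c R ⊆ C₁ ∪ C₂ ∧
      inradius (Metric.closedBall c R) = ENNReal.ofReal R ∧
      inradius C₁ + inradius C₂ ≤ ENNReal.ofReal ((3 - √5) * R) ∧
      inradius (C₁ ∩ Metric.closedBall c R) + inradius (C₂ ∩ Metric.closedBall c R) <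
        inradius (Metric.closedBall c R) := by
  obtain ⟨E, i1, i2, h1, h2, h⟩ := H25K.kadets.{u}
  refine ⟨E, i1, i2, h1, h2, fun c R hR => ?_⟩
  obtain ⟨C₁, C₂, k1, k2, k3, k4, k5⟩ := h c R hR
  refine ⟨C₁, C₂, k1, k2, k3, k4, k5, ?_⟩
  have h4 : inradius (Metric.closedBall c R) = ENNReal.ofReal R := k4
  rw [h4]
  refine lt_of_le_of_lt (add_le_add (inradius_mono Set.inter_subset_left)
    (inradius_mono Set.inter_subset_left)) (lt_of_le_of_lt k5 ?_)
  rw [ENNReal.ofReal_lt_ofReal_iff hR]
  have h5 : (2 : ℝ) < √5 := by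
    rw [Real.lt_sqrt (by norm_num)]
    norm_num
  nlinarith

end Pool.Agent.Results.MP_583d70_an.TwoBodies
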